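import Pool.Agent.TH188.VQ.ModelM
import Pool.Agent.TH188.WP.Res

/-!
# Resolution of the quotients
-/

set_option autoImplicit false
set_option linter.unusedVariables false
set_option linter.unusedSectionVars false

universe u

open Pool.Agent.W558 Pool.Agent.TH188.WP Pool.Agent.TH188.WQ TensorProduct AlgebraicGeometry
  CategoryTheory

namespace Pool.Agent.TH188.VQ

/-- There are smooth charts over the affine variety `Spec A`. -/
def HasCharts (k A : Type u) [Field k] [CommRing A] [Algebra k A] : Prop :=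
  ∃ (N : Type u) (_ : Field N) (_ : Algebra k N) (_ : Algebra A N) (_ : IsScalarTower k A N)
    (_ : IsFractionRing A N) (T I : Type) (_ : Finite T) (_ : Fintype I),
      Nonempty (LM (IsScalarTower.toAlgHom k A N).range (IsScalarTower.toAlgHom k A N).range T I)

theorem HasCharts.resolvable {k A : Type u} [Field k] [PerfectField k] [CommRing A] [IsDomain A]
    [Algebra k A] [Algebra.FiniteType k A] (h : HasCharts k A) :
    IsResolvableVariety (X := Spec (CommRingCat.of A))
      (Spec.map (CommRingCat.ofHom (algebraMap k A))) := by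
  obtain ⟨N, _, _, _, _, _, T, I, _, _, ⟨M⟩⟩ := h
  apply isResolvableVariety_spec
  exact hasResolution_of_LM _ (IsFractionRing.injective A N) M

/-- Charts from models. -/
theorem charts_of_models {k N : Type u} [Field k] [PerfectField k] [Field N] [Algebra k N]
    (A : Type u) [CommRing A] [IsDomain A] [Algebra k A] [Algebra.FiniteType k A] [Algebra A N]
    [IsScalarTower k A N] [IsFractionRing A N] (P : N → Prop)
    (hmod : ∀ (G : Type) (_ : Finite G) (y : G → N), (∀ b, y b ≠ 0 ∧ P (y b)) →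
      ∃ (T I : Type) (_ : Finite T) (_ : Fintype I) (M : LM (⊥ : Subalgebra k N) ⊤ T I)
        (Γ : G → I → ℤ), Fn M y Γ ∧ Frc M)
    (S : Finset A) (hS : ∀ a ∈ S, P (algebraMap A N a))
    (hA : ∀ a : A, IsIntegral (Algebra.adjoin k (S : Set A)) a) : HasCharts k A := by
  classical
  let S' : Finset A := S.filter fun a => a ≠ 0
  have hS' : (S' : Set A) = {a | a ∈ (S : Set A) ∧ a ≠ 0} := by
    ext a; simp [S']
  have hinj := IsFractionRing.injective A N
  obtain ⟨ε⟩ : Nonempty ({a // a ∈ S'} ≃ Fin S'.card) := ⟨S'.equivFin⟩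
  have hmem : ∀ b : Fin S'.card, (ε.symm b).1 ∈ S ∧ (ε.symm b).1 ≠ 0 := fun b => by
    have h1 := (ε.symm b).2
    simp only [S', Finset.mem_filter] at h1
    exact h1
  obtain ⟨T, I, hT, hI, M, Γ, hF, hR⟩ := hmod (Fin S'.card) inferInstance
    (fun b => algebraMap A N (ε.symm b).1)
    (fun b => ⟨fun h => (hmem b).2 (hinj (h.trans (map_zero _).symm)), hS _ (hmem b).1⟩)
  obtain ⟨T', I', hT', hI', hM'⟩ := LM_of_fn' M _ Γ hF hR A
    (fun b => (ε.symm b).1) (fun b => rfl) (by
      have h1 : Set.range (fun b => (ε.symm b).1) = (S' : Set A) := by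
        ext a
        constructor
        · rintro ⟨b, rfl⟩
          exact (ε.symm b).2
        · intro ha
          exact ⟨ε ⟨a, ha⟩, by simp⟩
      rw [h1, hS', adjoin_erase_zero]
      exact hA)
  exact ⟨N, _, _, _, inferInstance, inferInstance, T', I', hT', hI', hM'⟩

section fld

variable (p : ℕ) [Fact p.Prime] {k K : Type u} [Field k] [PerfectField k] [CharP k p] [Field K]
  [Algebra k K] {n : ℕ} (E : Fin n → IntermediateField k K) (D : Fin n → Derivation k K K)

/-- Models of the field of common constants. -/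
theorem exists_model_fld (hmi : MulHomInj.{u})
    (h2 : ∀ i, Algebra.trdeg k (E i) = 2) (hM : ∀ i, HasModel k (E i))
    (hdis : Function.Injective (mulHom E)) (hgen : cps E = ⊤)
    (hDE : ∀ i, ∀ x ∈ E i, D i x ∈ E i) (hD0 : ∀ i l, i ≠ l → ∀ x ∈ E l, D i x = 0)
    (hDp : (∀ i, ∀ x ∈ E i, (D i)^[p] x = 0) ∨ ∃ μ : Fin n → k, (∀ i, μ i ≠ 0) ∧
      ∀ i, ∀ x ∈ E i, (D i)^[p] x = μ i ^ (p - 1) • D i x) (V : Set (Fin n → k))
    (N : IntermediateField k K) (hN : ∀ x, x ∈ N ↔ ∀ v ∈ V, ∑ i, v i • D i x = 0)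
    (S : Type) [Finite S] (y : S → N) (hy0 : ∀ b, y b ≠ 0)
    (hy : ∀ b, ∃ s : Fin n → K, (∀ i, s i ∈ E i ∧ D i (s i) = 0) ∧ (y b : K) = ∏ i, s i) :
    ∃ (T I : Type) (_ : Finite T) (_ : Fintype I) (M : LM (⊥ : Subalgebra k N) ⊤ T I)
      (Γ : S → I → ℤ), Fn M y Γ ∧ Frc M := by
  have hp : p.Prime := Fact.out
  choose s hs hys using hy
  have hs0 : ∀ b i, s b i ≠ 0 := fun b i h => hy0 b (Subtype.ext (by
    rw [hys]
    exact Finset.prod_eq_zero (Finset.mem_univ i) h))
  rcases hDp with hDp | ⟨μ, hμ, hDp⟩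
  · exact exists_model_add E D hmi p h2 hM hdis hgen hDE hD0 hDp V N hN S
      (fun b i => ⟨s b i, hs b i⟩) (fun b i h => hs0 b i (congrArg Subtype.val h)) y hys
  · -- normalization
    let D' : Fin n → Derivation k K K := fun i => (μ i)⁻¹ • D i
    have hD' : ∀ i x, D' i x = (μ i)⁻¹ • D i x := fun i x => rfl
    have hit : ∀ i x (m : ℕ), (D' i)^[m] x = ((μ i)⁻¹) ^ m • (D i)^[m] x := by
      intro i x m
      induction m with
      | zero => rw [pow_zero, one_smul]; rfl
      | succ m ih =>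
        rw [Function.iterate_succ_apply', Function.iterate_succ_apply', ih, hD',
          (D i).map_smul, smul_smul, pow_succ']
    let V' : Set (Fin n → k) := (fun v i => v i * μ i) '' V
    have hc : ∀ (v : Fin n → k) (x : K), ∑ i, (v i * μ i) • D' i x = ∑ i, v i • D i x := by
      intro v x
      refine Finset.sum_congr rfl fun i _ => ?_
      rw [hD', smul_smul, mul_assoc, mul_inv_cancel₀ (hμ i), mul_one]
    refine exists_model_mul E D' hmi p h2 hM hdis hgen
      (fun i x hx => (E i).smul_mem (hDE i x hx))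
      (fun i l hil x hx => by rw [hD', hD0 i l hil x hx, smul_zero]) ?_ V' N ?_ S
      (fun b i => ⟨s b i, (hs b i).1, by
        change D' i (s b i) = 0
        rw [hD', (hs b i).2, smul_zero]⟩) (fun b i h => hs0 b i (congrArg Subtype.val h)) y hys
    · intro i x hx
      rw [hit, hDp i x hx, smul_smul, hD']
      congr 1
      obtain ⟨m, hm⟩ : ∃ m, p = m + 1 := ⟨p - 1, (Nat.sub_add_cancel hp.one_lt.le).symm⟩
      rw [hm, Nat.add_sub_cancel, pow_succ, inv_pow, mul_assoc, mul_comm ((μ i)⁻¹), ← mul_assoc,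
        inv_mul_cancel₀ (pow_ne_zero _ (hμ i)), one_mul]
    · intro x
      rw [hN]
      constructor
      · rintro h _ ⟨v, hv, rfl⟩
        exact (hc v x).trans (h v hv)
      · intro h v hv
        exact (hc v x).symm.trans (h _ ⟨v, hv, rfl⟩)

end fld

end Pool.Agent.TH188.VQ
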