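import Mathlib

/-!
# Constants of commuting derivations
-/

set_option autoImplicit false
set_option linter.unusedVariables false
set_option linter.unusedSectionVars false

universe u

open Polynomial

namespace Pool.Agent.TH188.VQ

/-- Statement: constants in a simple extension generated by a `p`-th root. -/
def MemOfDer : Prop :=
  ∀ (p : ℕ) [Fact p.Prime] (k K : Type u) [Field k] [Field K] [Algebra k K]
    [CharP K p] (N : IntermediateField k K) (d : Derivation k K K), (∀ x ∈ N, d x = 0) →
    ∀ (t : K), t ^ p ∈ N → d t ≠ 0 → ∀ (y : K),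
    y ∈ IntermediateField.adjoin k (insert t (N : Set K)) → d y = 0 → y ∈ N

section const

variable {k K : Type u} [Field k] [Field K] [Algebra k K]

/-- The field of constants of a derivation. -/
def kerF (d : Derivation k K K) : IntermediateField k K where
  carrier := {x | d x = 0}
  mul_mem' := by
    intro a b (ha : d a = 0) (hb : d b = 0)
    change d (a * b) = 0
    rw [d.leibniz, ha, hb, smul_zero, smul_zero, add_zero]
  add_mem' := by
    intro a b (ha : d a = 0) (hb : d b = 0)
    change d (a + b) = 0
    rw [map_add, ha, hb, add_zero]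
  algebraMap_mem' := fun c => d.map_algebraMap c
  inv_mem' := by
    intro a (ha : d a = 0)
    change d a⁻¹ = 0
    rw [d.leibniz_inv, ha, smul_zero]

lemma mem_kerF {d : Derivation k K K} {x : K} : x ∈ kerF d ↔ d x = 0 := Iff.rfl

lemma adjoin_ker {d : Derivation k K K} {S : Set K} (h : ∀ x ∈ S, d x = 0) {x : K}
    (hx : x ∈ IntermediateField.adjoin k S) : d x = 0 := by
  have h1 : IntermediateField.adjoin k S ≤ kerF d :=
    IntermediateField.adjoin_le_iff.2 fun y hy => h y hy
  exact h1 hx

variable {J : Type} [Fintype J]

lemma der_sum (δ : J → Derivation k K K) (v : J → k) (x : K) :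
    (∑ j, v j • δ j) x = ∑ j, v j • δ j x := by
  have h1 : ∀ s : Finset J, (∑ j ∈ s, v j • δ j) x = ∑ j ∈ s, v j • δ j x := by
    classical
    intro s
    induction s using Finset.induction_on with
    | empty => rfl
    | insert a s ha ih =>
      rw [Finset.sum_insert ha, Finset.sum_insert ha, Derivation.add_apply, ih]
      rfl
  exact h1 _

/-- Constants, additive case. -/
theorem const_add (hmd : MemOfDer.{u}) (p : ℕ) [Fact p.Prime] [CharP K p]
    (L : IntermediateField k K) (t : J → K)
    (δ : J → Derivation k K K) (hL : ∀ j, ∀ x ∈ L, δ j x = 0) (ht : ∀ j, t j ^ p ∈ L)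
    [DecidableEq J] (h1 : ∀ j l, δ j (t l) = if j = l then 1 else 0)
    (hgen : IntermediateField.adjoin k ((L : Set K) ∪ Set.range t) = ⊤) (V : Set (J → k)) (x : K)
    (hx : ∀ v ∈ V, ∑ j, v j • δ j x = 0) :
    x ∈ IntermediateField.adjoin k ((L : Set K) ∪ {y | ∃ lam : J → k,
      (∀ v ∈ V, ∑ j, v j * lam j = 0) ∧ y = ∑ j, lam j • t j}) := by
  have hp : p.Prime := Fact.out
  let w : (J → k) → K := fun lam => ∑ j, lam j • t j
  have hwadd : ∀ a b, w (a + b) = w a + w b := by
    intro a b
    change ∑ j, (a + b) j • t j = ∑ j, a j • t j + ∑ j, b j • t j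
    rw [← Finset.sum_add_distrib]
    exact Finset.sum_congr rfl fun j _ => by rw [Pi.add_apply, add_smul]
  have hwsmul : ∀ (c : k) b, w (c • b) = c • w b := by
    intro c b
    change ∑ j, (c • b) j • t j = c • ∑ j, b j • t j
    rw [Finset.smul_sum]
    exact Finset.sum_congr rfl fun j _ => by rw [Pi.smul_apply, smul_assoc]
  have hwp : ∀ a, w a ^ p ∈ L := by
    intro a
    change (∑ j, a j • t j) ^ p ∈ L
    rw [sum_pow_char]
    refine sum_mem fun j _ => ?_
    rw [Algebra.smul_def, mul_pow, ← map_pow]
    exact mul_mem (L.algebraMap_mem _) (ht j)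
  have hdw : ∀ v a : J → k, (∑ j, v j • δ j) (w a) = algebraMap k K (∑ j, v j * a j) := by
    intro v a
    rw [der_sum, map_sum]
    refine Finset.sum_congr rfl fun j _ => ?_
    change v j • δ j (∑ l, a l • t l) = _
    rw [map_sum, Finset.sum_eq_single j]
    · rw [(δ j).map_smul, h1, if_pos rfl, map_mul, Algebra.smul_def, Algebra.smul_def, mul_one]
    · intro l _ hl
      rw [(δ j).map_smul, h1, if_neg (Ne.symm hl), smul_zero]
    · intro h; exact absurd (Finset.mem_univ j) h
  let N : Submodule k (J → k) → IntermediateField k K := fun U =>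
    IntermediateField.adjoin k ((L : Set K) ∪ w '' U)
  let U0 : Submodule k (J → k) :=
    { carrier := {a | ∀ v ∈ V, ∑ j, v j * a j = 0}
      add_mem' := by
        intro a b ha hb v hv
        have e1 : ∑ j, v j * (a + b) j = ∑ j, v j * a j + ∑ j, v j * b j := by
          rw [← Finset.sum_add_distrib]
          exact Finset.sum_congr rfl fun j _ => mul_add _ _ _
        rw [e1, ha v hv, hb v hv, add_zero]
      zero_mem' := by
        intro v hv
        exact Finset.sum_eq_zero fun j _ => mul_zero _
      smul_mem' := by
        intro c a ha v hv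
        have e1 : ∑ j, v j * (c • a) j = c * ∑ j, v j * a j := by
          rw [Finset.mul_sum]
          exact Finset.sum_congr rfl fun j _ => by
            rw [Pi.smul_apply, smul_eq_mul]; ring
        rw [e1, ha v hv, mul_zero] }
  have hU0 : x ∈ N U0 → x ∈ IntermediateField.adjoin k ((L : Set K) ∪ {y | ∃ lam : J → k,
      (∀ v ∈ V, ∑ j, v j * lam j = 0) ∧ y = ∑ j, lam j • t j}) := by
    intro h
    refine IntermediateField.adjoin.mono k _ _ ?_ h
    refine Set.union_subset_union_right _ ?_
    rintro _ ⟨lam, hlam, rfl⟩
    exact ⟨lam, hlam, rfl⟩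
  apply hU0
  have key : ∀ U : Submodule k (J → k), U0 ≤ U → x ∈ N U → x ∈ N U0 := by
    intro U
    induction U using WellFoundedLT.induction with
    | _ U ih =>
    intro hU hxU
    by_cases hle : U ≤ U0
    · rwa [le_antisymm hle hU] at hxU
    · obtain ⟨lam, hlU, hl0⟩ := SetLike.not_le_iff_exists.1 hle
      have hv : ∃ v ∈ V, ∑ j, v j * lam j ≠ 0 := by
        by_contra hcon
        push Not at hcon
        exact hl0 hcon
      obtain ⟨v, hvV, hvl⟩ := hv
      let U' : Submodule k (J → k) :=
        { carrier := {a | a ∈ U ∧ ∑ j, v j * a j = 0}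
          add_mem' := by
            rintro a b ⟨ha1, ha⟩ ⟨hb1, hb⟩
            refine ⟨add_mem ha1 hb1, ?_⟩
            have e1 : ∑ j, v j * (a + b) j = ∑ j, v j * a j + ∑ j, v j * b j := by
              rw [← Finset.sum_add_distrib]
              exact Finset.sum_congr rfl fun j _ => mul_add _ _ _
            rw [e1, ha, hb, add_zero]
          zero_mem' := ⟨zero_mem U, Finset.sum_eq_zero fun j _ => mul_zero _⟩
          smul_mem' := by
            rintro c a ⟨ha1, ha⟩
            refine ⟨U.smul_mem c ha1, ?_⟩
            have e1 : ∑ j, v j * (c • a) j = c * ∑ j, v j * a j := by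
              rw [Finset.mul_sum]
              exact Finset.sum_congr rfl fun j _ => by
                rw [Pi.smul_apply, smul_eq_mul]; ring
            rw [e1, ha, mul_zero] }
      have hU'U : U' < U := by
        refine lt_of_le_of_ne (fun a ha => ha.1) ?_
        intro h
        rw [← h] at hlU
        exact hvl hlU.2
      refine ih U' hU'U (fun a ha => ⟨hU ha, ha v hvV⟩) ?_
      refine hmd p k K (N U') (∑ j, v j • δ j) ?_ (w lam) ?_ ?_ x ?_ ?_
      · intro y hy
        refine adjoin_ker ?_ hy
        rintro z (hz | ⟨a, ha, rfl⟩)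
        · rw [der_sum]
          exact Finset.sum_eq_zero fun j _ => by rw [hL j z hz, smul_zero]
        · rw [hdw, ha.2, map_zero]
      · exact IntermediateField.subset_adjoin k _ (Or.inl (hwp lam))
      · rw [hdw]
        exact (_root_.map_ne_zero (algebraMap k K)).2 hvl
      · have h2 : N U ≤ IntermediateField.adjoin k (insert (w lam) (N U' : Set K)) := by
          refine IntermediateField.adjoin_le_iff.2 ?_
          have h3 : (N U' : Set K) ⊆
              IntermediateField.adjoin k (insert (w lam) (N U' : Set K)) := fun y hy =>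
            IntermediateField.subset_adjoin k _ (Or.inr hy)
          rintro y (hy | ⟨a, ha, rfl⟩)
          · exact h3 (IntermediateField.subset_adjoin k _ (Or.inl hy))
          · let c : k := (∑ j, v j * a j) / ∑ j, v j * lam j
            have h4 : w a = w (a + (-c) • lam) + c • w lam := by
              rw [hwadd, hwsmul, neg_smul]
              ring
            have h5 : a + (-c) • lam ∈ U' := by
              refine ⟨add_mem ha (U.smul_mem _ hlU), ?_⟩
              have e1 : ∑ j, v j * (a + (-c) • lam) j =
                  ∑ j, v j * a j - c * ∑ j, v j * lam j := by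
                rw [Finset.mul_sum, ← Finset.sum_sub_distrib]
                refine Finset.sum_congr rfl fun j _ => ?_
                rw [Pi.add_apply, Pi.smul_apply, smul_eq_mul]
                ring
              rw [e1, div_mul_cancel₀ _ hvl, sub_self]
            rw [h4]
            have h6 : w lam ∈ IntermediateField.adjoin k (insert (w lam) (N U' : Set K)) :=
              IntermediateField.subset_adjoin k _ (Or.inl rfl)
            refine add_mem (h3 (IntermediateField.subset_adjoin k _ (Or.inr ⟨_, h5, rfl⟩))) ?_
            rw [Algebra.smul_def]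
            exact mul_mem (IntermediateField.algebraMap_mem _ c) h6
        exact h2 hxU
      · rw [der_sum]
        exact hx v hvV
  refine key ⊤ le_top ?_
  have h2 : (⊤ : IntermediateField k K) ≤ N ⊤ := by
    rw [← hgen]
    refine IntermediateField.adjoin.mono k _ _ (Set.union_subset_union_right _ ?_)
    rintro _ ⟨j, rfl⟩
    refine ⟨Pi.single j 1, trivial, ?_⟩
    change ∑ l, (Pi.single j (1 : k) : J → k) l • t l = t j
    rw [Finset.sum_eq_single j]
    · rw [Pi.single_eq_same, one_smul]
    · intro l _ hl
      rw [Pi.single_eq_of_ne hl, zero_smul]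
    · intro h; exact absurd (Finset.mem_univ j) h
  exact h2 trivial

end const

end Pool.Agent.TH188.VQ
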