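import Pool.Agent.TH188.VQ.Const

/-!
# Constants of commuting derivations, multiplicative case
-/

set_option autoImplicit false
set_option linter.unusedVariables false
set_option linter.unusedSectionVars false

universe u

open Polynomial

namespace Pool.Agent.TH188.VQ

/-- The components of an element of the kernel with eigenvalue different from `0` vanish. -/
lemma eig_part {k W : Type u} {ι : Type} [Field k] [AddCommGroup W] [Module k W] (D : Module.End k W)
    [DecidableEq k] (S : Finset ι) (a : ι → W) (ev : ι → k) (ha : ∀ i ∈ S, D (a i) = ev i • a i)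
    (h : D (∑ i ∈ S, a i) = 0) (e : k) (he : e ≠ 0) :
    ∑ i ∈ S.filter (fun i => ev i = e), a i = 0 := by
  classical
  by_cases heS : e ∈ S.image ev
  · have h1 := (iSupIndep_iff_finsetSum_eq_zero_imp_eq_zero D.eigenspace).1
      D.eigenspaces_iSupIndep (S.image ev)
      (fun e' => e' • ∑ i ∈ S.filter (fun i => ev i = e'), a i) ?_ ?_ e heS
    · exact (smul_eq_zero.1 h1).resolve_left he
    · intro e' _
      refine Submodule.smul_mem _ _ (Submodule.sum_mem _ fun i hi => ?_)
      rw [Finset.mem_filter] at hi
      rw [Module.End.mem_eigenspace_iff, ha i hi.1, hi.2]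
    · rw [map_sum] at h
      rw [← h, ← Finset.sum_fiberwise_of_maps_to (g := ev) (t := S.image ev)
        (fun i hi => Finset.mem_image_of_mem ev hi)]
      refine Finset.sum_congr rfl fun e' _ => ?_
      rw [Finset.smul_sum]
      refine Finset.sum_congr rfl fun i hi => ?_
      rw [Finset.mem_filter] at hi
      rw [ha i hi.1, hi.2]
  · rw [Finset.filter_eq_empty_iff.2, Finset.sum_empty]
    intro i hi hie
    exact heS (hie ▸ Finset.mem_image_of_mem ev hi)

section const

variable {k K : Type u} [Field k] [Field K] [Algebra k K] {J : Type} [Fintype J]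

lemma der_prod (δ : Derivation k K K) (t : J → K) (a : J → ℕ) (c : J → k)
    (h : ∀ j, δ (t j) = c j • t j) :
    δ (∏ j, t j ^ a j) = (∑ j, c j * a j) • ∏ j, t j ^ a j := by
  classical
  have h1 : ∀ (x : K) (c : k) (n : ℕ), δ x = c • x → δ (x ^ n) = (c * n) • x ^ n := by
    intro x c n hx
    induction n with
    | zero => rw [pow_zero, δ.map_one_eq_zero, Nat.cast_zero, mul_zero, zero_smul]
    | succ n ih =>
      rw [pow_succ, δ.leibniz, ih, hx, Nat.cast_succ, mul_add, mul_one, add_smul]
      simp only [smul_eq_mul, Algebra.smul_def]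
      ring
  have h2 : ∀ s : Finset J, δ (∏ j ∈ s, t j ^ a j) = (∑ j ∈ s, c j * a j) •
      ∏ j ∈ s, t j ^ a j := by
    intro s
    induction s using Finset.induction_on with
    | empty =>
      rw [Finset.prod_empty, Finset.sum_empty, zero_smul, δ.map_one_eq_zero]
    | insert i s hi ih =>
      rw [Finset.prod_insert hi, Finset.sum_insert hi, δ.leibniz, ih, h1 _ _ _ (h i), add_smul]
      simp only [smul_eq_mul, Algebra.smul_def]
      ring
  exact h2 _

/-- Constants, multiplicative case. -/
theorem const_mul (p : ℕ) [Fact p.Prime] [CharP K p]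
    (L : IntermediateField k K) (t : J → K)
    (δ : J → Derivation k K K) (hL : ∀ j, ∀ x ∈ L, δ j x = 0) (ht : ∀ j, t j ^ p ∈ L)
    [DecidableEq J] (h1 : ∀ j l, δ j (t l) = if j = l then t l else 0)
    (hgen : IntermediateField.adjoin k ((L : Set K) ∪ Set.range t) = ⊤) (V : Set (J → k)) (x : K)
    (hx : ∀ v ∈ V, ∑ j, v j • δ j x = 0) :
    x ∈ IntermediateField.adjoin k ((L : Set K) ∪ {y | ∃ lam : J → ZMod p,
      (∀ v ∈ V, ∑ j, v j * ((lam j).val : k) = 0) ∧ y = ∏ j, t j ^ (lam j).val}) := by
  classical
  have hp : p.Prime := Fact.out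
  let w : (J → ZMod p) → K := fun lam => ∏ j, t j ^ (lam j).val
  have hdw : ∀ (v : J → k) lam, (∑ j, v j • δ j) (w lam) =
      (∑ j, v j * ((lam j).val : k)) • w lam := by
    intro v lam
    have h2 : ∀ l, (∑ j, v j • δ j) (t l) = v l • t l := by
      intro l
      rw [der_sum, Finset.sum_eq_single l]
      · rw [h1, if_pos rfl]
      · intro j _ hj
        rw [h1, if_neg hj, smul_zero]
      · intro h; exact absurd (Finset.mem_univ l) h
    exact der_prod _ t (fun j => (lam j).val) v h2
  have hspan : ∃ c : (J → ZMod p) → L, x = ∑ lam : J → ZMod p, (c lam : K) * w lam := by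
    have hmon : ∀ m ∈ Submonoid.closure (Set.range t), ∃ (c : L) (lam : J → ZMod p),
        m = (c : K) * w lam := by
      intro m hm
      induction hm using Submonoid.closure_induction with
      | mem m hm =>
        obtain ⟨j, rfl⟩ := hm
        refine ⟨1, Pi.single j 1, ?_⟩
        change t j = ((1 : L) : K) * ∏ l, t l ^ ((Pi.single j (1 : ZMod p) : J → ZMod p) l).val
        rw [Finset.prod_eq_single j]
        · have : Fact (1 < p) := ⟨hp.one_lt⟩
          rw [Pi.single_eq_same, ZMod.val_one, pow_one]
          exact (one_mul _).symm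
        · intro l _ hl
          rw [Pi.single_eq_of_ne hl, ZMod.val_zero, pow_zero]
        · intro h; exact absurd (Finset.mem_univ j) h
      | one =>
        refine ⟨1, 0, ?_⟩
        have h3 : w 0 = 1 := Finset.prod_eq_one fun j _ => by
          rw [Pi.zero_apply, ZMod.val_zero, pow_zero]
        rw [h3, mul_one]; rfl
      | mul m m' _ _ ih ih' =>
        obtain ⟨c, lam, rfl⟩ := ih
        obtain ⟨c', lam', rfl⟩ := ih'
        refine ⟨c * c' * ∏ j, ⟨t j ^ p, ht j⟩ ^ (((lam j).val + (lam' j).val) / p),
          lam + lam', ?_⟩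
        have h3 : w lam * w lam' = (∏ j, (t j ^ p) ^ (((lam j).val + (lam' j).val) / p)) *
            w (lam + lam') := by
          change (∏ j, t j ^ (lam j).val) * (∏ j, t j ^ (lam' j).val) = _ *
            ∏ j, t j ^ ((lam + lam') j).val
          rw [← Finset.prod_mul_distrib, ← Finset.prod_mul_distrib]
          refine Finset.prod_congr rfl fun j _ => ?_
          rw [← pow_add, ← pow_mul, ← pow_add, Pi.add_apply, ZMod.val_add, Nat.div_add_mod]
        have h4 : ((∏ j, (⟨t j ^ p, ht j⟩ : L) ^ (((lam j).val + (lam' j).val) / p) : L) : K) =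
            ∏ j, (t j ^ p) ^ (((lam j).val + (lam' j).val) / p) := by
          rw [← IntermediateField.algebraMap_apply, map_prod]
          exact Finset.prod_congr rfl fun j _ => by rw [map_pow]; rfl
        change (c : K) * w lam * ((c' : K) * w lam') = (c : K) * (c' : K) * _ * _
        rw [h4]
        calc (c : K) * w lam * ((c' : K) * w lam') = (c : K) * c' * (w lam * w lam') := by ring
          _ = _ := by rw [h3]; ring
    have hint : ∀ j, IsIntegral L (t j) := fun j =>
      ⟨X ^ p - C ⟨t j ^ p, ht j⟩, monic_X_pow_sub_C _ hp.ne_zero, by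
        rw [← aeval_def, map_sub, map_pow, aeval_X, aeval_C]
        exact sub_self _⟩
    have htop : IntermediateField.adjoin L (Set.range t) = ⊤ := by
      rw [← IntermediateField.restrictScalars_eq_top_iff (K := k), eq_top_iff, ← hgen,
        IntermediateField.adjoin_le_iff]
      rintro y (hy | hy)
      · exact (IntermediateField.adjoin L (Set.range t)).algebraMap_mem ⟨y, hy⟩
      · exact IntermediateField.subset_adjoin L _ hy
    have hx2 : x ∈ Algebra.adjoin L (Set.range t) := by
      rw [← IntermediateField.adjoin_toSubalgebra_of_isAlgebraic (F := L) (S := Set.range t) (by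
        rintro _ ⟨j, rfl⟩
        exact (hint j).isAlgebraic), htop]
      trivial
    rw [← Subalgebra.mem_toSubmodule, Algebra.adjoin_eq_span] at hx2
    refine Submodule.span_induction ?_ ?_ ?_ ?_ hx2
    · intro m hm
      obtain ⟨c, lam, rfl⟩ := hmon m hm
      refine ⟨Pi.single lam c, ?_⟩
      rw [Finset.sum_eq_single lam]
      · rw [Pi.single_eq_same]
      · intro l _ hl
        rw [Pi.single_eq_of_ne hl]
        exact zero_mul _
      · intro h; exact absurd (Finset.mem_univ lam) h
    · refine ⟨0, (Finset.sum_eq_zero fun l _ => ?_).symm⟩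
      exact zero_mul _
    · rintro y z _ _ ⟨c, rfl⟩ ⟨c', rfl⟩
      refine ⟨c + c', ?_⟩
      rw [← Finset.sum_add_distrib]
      exact Finset.sum_congr rfl fun l _ => (add_mul _ _ _).symm
    · rintro a y _ ⟨c, rfl⟩
      refine ⟨a • c, ?_⟩
      rw [Finset.smul_sum]
      refine Finset.sum_congr rfl fun l _ => ?_
      change (a : K) * ((c l : K) * w l) = (a : K) * (c l : K) * w l
      rw [mul_assoc]
  obtain ⟨c, hc⟩ := hspan
  have key : ∀ (n : ℕ) (S : Finset (J → ZMod p)), S.card = n →
      x = ∑ lam ∈ S, (c lam : K) * w lam →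
      x ∈ IntermediateField.adjoin k ((L : Set K) ∪ {y | ∃ lam : J → ZMod p,
        (∀ v ∈ V, ∑ j, v j * ((lam j).val : k) = 0) ∧ y = ∏ j, t j ^ (lam j).val}) := by
    intro n
    induction n using Nat.strong_induction_on with
    | _ n ih =>
    intro S hS hxS
    by_cases hall : ∀ lam ∈ S, ∀ v ∈ V, ∑ j, v j * ((lam j).val : k) = 0
    · rw [hxS]
      refine sum_mem fun lam hlam => mul_mem ?_ ?_
      · exact IntermediateField.subset_adjoin k _ (Or.inl (c lam).2)
      · exact IntermediateField.subset_adjoin k _ (Or.inr ⟨lam, hall lam hlam, rfl⟩)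
    · push Not at hall
      obtain ⟨lam0, hlam0, v, hvV, hne⟩ := hall
      let ev : (J → ZMod p) → k := fun lam => ∑ j, v j * ((lam j).val : k)
      have h2 := eig_part ((∑ j, v j • δ j : Derivation k K K) : K →ₗ[k] K) S
        (fun lam => (c lam : K) * w lam) ev ?_ ?_ (ev lam0) hne
      · refine ih (S.filter fun lam => ¬ ev lam = ev lam0).card ?_
          (S.filter fun lam => ¬ ev lam = ev lam0) rfl ?_
        · rw [← hS]
          apply Finset.card_lt_card
          rw [Finset.filter_ssubset]
          exact ⟨lam0, hlam0, by simp⟩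
        · rw [hxS, ← Finset.sum_filter_add_sum_filter_not S (fun lam => ev lam = ev lam0), h2,
            zero_add]
      · intro lam _
        change (∑ j, v j • δ j) ((c lam : K) * w lam) = _
        have h3 : (∑ j, v j • δ j) (c lam : K) = 0 := by
          rw [der_sum]
          exact Finset.sum_eq_zero fun j _ => by rw [hL j _ (c lam).2, smul_zero]
        rw [Derivation.leibniz, h3, hdw, smul_zero, add_zero, smul_eq_mul]
        simp only [Algebra.smul_def]
        ring
      · change (∑ j, v j • δ j) (∑ lam ∈ S, (c lam : K) * w lam) = 0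
        rw [← hxS, der_sum]
        exact hx v hvV
  exact key _ Finset.univ rfl hc

end const

end Pool.Agent.TH188.VQ
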