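import Pool.Agent.TH188.WQ.Surf
import Pool.Agent.TH188.VQ.ConstM
import Pool.Agent.TH883.WQ.Der
import Pool.Agent.TH883.WQ.Const
import Pool.Agent.TH26.WQ.Pow
import Pool.Agent.H920R2.Fol4

/-!
# Constants of a derivation on the function field of a surface
-/

set_option autoImplicit false
set_option linter.unusedVariables false
set_option linter.unusedSectionVars false

universe u

open Polynomial Pool.Agent.W558 Pool.Agent.TH188.WP Pool.Agent.TH188.WQ TensorProduct

namespace Pool.Agent.TH188.VQ

theorem memOfDer : MemOfDer.{u} :=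
  fun p _ k K _ _ _ _ N d hd t ht hdt y hy hdy =>
    Pool.Agent.TH883.J1051.mem_of_der p k K N d hd t ht hdt y hy hdy

section sub

variable (p : ℕ) [Fact p.Prime] (k E : Type u) [Field k] [PerfectField k] [CharP k p] [Field E]
  [Algebra k E]

/-- Subfields which contain the `p`-th powers. -/
theorem surfM_sub (h2 : Algebra.trdeg k E = 2) (hM : HasModel k E) (F : IntermediateField k E)
    (hF : ∀ x : E, x ^ p ∈ F) : SurfM k F := by
  have hp : p.Prime := Fact.out
  let Ep : IntermediateField k E := IntermediateField.adjoin k (Set.range fun x : E => x ^ p)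
  have hEp : Ep ≤ F := IntermediateField.adjoin_le_iff.2 (by rintro _ ⟨x, rfl⟩; exact hF x)
  have hEx : ∀ x : E, x ^ p ∈ Ep := fun x => IntermediateField.subset_adjoin k _ ⟨x, rfl⟩
  have hint : ∀ x : E, IsIntegral Ep x := fun x =>
    ⟨X ^ p - C ⟨x ^ p, hEx x⟩, monic_X_pow_sub_C _ hp.ne_zero, by
      rw [← aeval_def, map_sub, map_pow, aeval_X, aeval_C]
      exact sub_self _⟩
  have halg : Algebra.IsAlgebraic Ep E := ⟨fun x => (hint x).isAlgebraic⟩
  have hE1 : SurfM k Ep := by
    refine SurfM.of_hasModel ?_ (Pool.Agent.TH26.WQ.hasModel_pow p k E hM)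
    have h1 := _root_.trdeg_add_eq k Ep (A := E)
    rw [_root_.trdeg_eq_zero (R := Ep) (A := E), add_zero] at h1
    rw [h1, h2]
  have hessk : Algebra.EssFiniteType k E := essFinite_of_hasModel hM
  have hess : Algebra.EssFiniteType Ep E := Algebra.EssFiniteType.of_comp k Ep E
  have hfin : FiniteDimensional Ep E := by
    obtain ⟨S, hS⟩ := IntermediateField.fg_top Ep E
    have h1 : FiniteDimensional Ep (IntermediateField.adjoin Ep (S : Set E)) :=
      IntermediateField.finiteDimensional_adjoin fun x _ => hint x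
    rw [hS] at h1
    exact IntermediateField.topEquiv.toLinearEquiv.finiteDimensional
  let aF : Algebra Ep F := (IntermediateField.inclusion hEp).toAlgebra
  have t1 : IsScalarTower k Ep F := IsScalarTower.of_algebraMap_eq fun c => rfl
  have t2 : IsScalarTower Ep F E := IsScalarTower.of_algebraMap_eq fun c => rfl
  have hfinF : FiniteDimensional Ep F :=
    FiniteDimensional.of_injective (IsScalarTower.toAlgHom Ep F E).toLinearMap
      (IsScalarTower.toAlgHom Ep F E).toRingHom.injective
  let b := Module.finBasis Ep F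
  refine SurfM.tower p _ Ep F hE1 b (fun j => ⟨⟨(b j : E) ^ p, hEx _⟩, rfl⟩) ?_
  rw [eq_top_iff]
  intro y _
  rw [← b.sum_repr y]
  refine sum_mem fun j _ => ?_
  rw [Algebra.smul_def]
  exact mul_mem (IntermediateField.algebraMap_mem _ _)
    (IntermediateField.subset_adjoin Ep _ ⟨j, rfl⟩)

end sub

section der

variable (p : ℕ) [Fact p.Prime] (k E : Type u) [Field k] [PerfectField k] [CharP k p] [Field E]
  [Algebra k E] (D : Derivation k E E)

lemma pow_mem_kerF (x : E) : x ^ p ∈ kerF D := by
  have hc : CharP E p := charP_of_injective_algebraMap (algebraMap k E).injective p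
  rw [mem_kerF, D.leibniz_pow, ← Nat.cast_smul_eq_nsmul E, CharP.cast_eq_zero, zero_smul]

/-- The field is generated over the field of constants by any non-constant element. -/
theorem adjoin_of_der (c : k) (hD : ∀ x, D^[p] x = c • D x) (t : E) (ht : D t ≠ 0) :
    IntermediateField.adjoin k (insert t (kerF D : Set E)) = ⊤ := by
  have hp : p.Prime := Fact.out
  have hpk : (p : k) = 0 := CharP.cast_eq_zero k p
  rw [eq_top_iff]
  intro x _
  have hθ : D t * (D t)⁻¹ = 1 := mul_inv_cancel₀ ht
  have hD' : ∀ x, D^[p] x = algebraMap k E c * D x := fun x => by rw [hD, Algebra.smul_def]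
  have h1 := Pool.Agent.H920R2.nD_iter_p D hp hpk (algebraMap k E c) hD' t (D t) (D t)⁻¹ rfl hθ x
  obtain ⟨a, ha, hx⟩ := Pool.Agent.H920R2.taylor D hp hpk t (D t) (D t)⁻¹ rfl hθ ⊤ trivial
    (fun _ _ => trivial) trivial p le_rfl x trivial h1
  rw [hx]
  refine sum_mem fun i _ => mul_mem ?_ (pow_mem ?_ _)
  · exact IntermediateField.subset_adjoin k _ (Or.inr (ha i).2)
  · exact IntermediateField.subset_adjoin k _ (Or.inl rfl)

end der

end Pool.Agent.TH188.VQ
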