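import Pool.Agent.TH188.VQ.Prep

/-!
# Models of the field of common constants
-/

set_option autoImplicit false
set_option linter.unusedVariables false
set_option linter.unusedSectionVars false

universe u

open Polynomial Pool.Agent.W558 Pool.Agent.TH188.WP Pool.Agent.TH188.WQ TensorProduct

namespace Pool.Agent.TH188.VQ

section model

variable {k K : Type u} [Field k] [Field K] [Algebra k K] {n : ℕ}

/-- The joint normal form on the compositum. -/
theorem gm_cps (p : ℕ) [Fact p.Prime] [PerfectField k] [CharP k p]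
    (F : Fin n → IntermediateField k K) (hF : ∀ i, SurfM k (F i))
    (hdis : Function.Injective (mulHom F)) (ι : Fin n → Type) [∀ i, Subsingleton (ι i)]
    (f : ∀ i, ι i → F i) (hf : ∀ i l, ¬ ∃ b, b ^ p = f i l) (G : Type) [Finite G]
    (c : ∀ i, G → F i) (hc : ∀ i b, c i b ≠ 0) :
    GM p k (fun q : Σ i, ι i => (⟨(f q.1 q.2 : K), mem_cps F _ _⟩ : cps F))
      (fun q : Fin n × G => (⟨(c q.1 q.2 : K), mem_cps F _ _⟩ : cps F)) := by
  let L := cps F
  let e : ∀ i, F i →ₐ[k] L := fun i =>
    (F i).val.codRestrict L.toSubalgebra (fun a => mem_cps F i a)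
  let φ : (⨂[k] i, F i) →ₐ[k] L := (mulHom F).codRestrict L.toSubalgebra (mulHom_mem F)
  have hφ : ∀ i a, φ (PiTensorProduct.singleAlgHom (R := k) (A := fun i => F i) i a) = e i a :=
    fun i a => Subtype.ext (mulHom_single F i a)
  have hinj : Function.Injective φ := fun x y h => hdis (congrArg Subtype.val h)
  have hfr : ∀ x : L, ∃ a b, φ b ≠ 0 ∧ x * φ b = φ a := by
    intro x
    obtain ⟨a, b, hb, h⟩ := cps_frac F x x.2
    exact ⟨a, b, fun h0 => hb (congrArg Subtype.val h0), Subtype.ext h⟩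
  exact Fam.main wd_prod p k L n (fun i => F i) e φ hφ hinj hfr G ι f c
    fun i => gm_surf' p (hF i) (ι i) G (f i) (hf i) (c i) (hc i)

/-- The end of the construction of the models. -/
lemma fin_model {N : Type u} [Field N] [Algebra k N] {G S : Type} {g : G → N} {T I : Type}
    [Fintype I] {M : LM (⊥ : Subalgebra k N) ⊤ T I} {Γ : G → I → ℤ} (hF : Fn M g Γ)
    (y : S → N) (hy : ∀ b, y b ∈ Submonoid.closure (Set.range g)) :
    ∃ Γ' : S → I → ℤ, Fn M y Γ' := by
  choose Γ' hΓ' using fun b => isFn_of_closure hF (hy b)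
  exact ⟨Γ', fun b t => hΓ' b t⟩

variable (E : Fin n → IntermediateField k K) (D : Fin n → Derivation k K K)

/-- Models of the field of common constants, additive case. -/
theorem exists_model_add (hmi : MulHomInj.{u}) (p : ℕ) [Fact p.Prime] [PerfectField k] [CharP k p]
    (h2 : ∀ i, Algebra.trdeg k (E i) = 2) (hM : ∀ i, HasModel k (E i))
    (hdis : Function.Injective (mulHom E)) (hgen : cps E = ⊤)
    (hDE : ∀ i, ∀ x ∈ E i, D i x ∈ E i) (hD0 : ∀ i l, i ≠ l → ∀ x ∈ E l, D i x = 0)
    (hDp : ∀ i, ∀ x ∈ E i, (D i)^[p] x = 0) (V : Set (Fin n → k))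
    (N : IntermediateField k K) (hN : ∀ x, x ∈ N ↔ ∀ v ∈ V, ∑ i, v i • D i x = 0)
    (S : Type) [Finite S] (s : S → ∀ i, Fi E D i) (hs : ∀ b i, s b i ≠ 0)
    (y : S → N) (hy : ∀ b, (y b : K) = ∏ i, (s b i : K)) :
    ∃ (T I : Type) (_ : Finite T) (_ : Fintype I) (M : LM (⊥ : Subalgebra k N) ⊤ T I)
      (Γ : S → I → ℤ), Fn M y Γ ∧ Frc M := by
  classical
  have hp : p.Prime := Fact.out
  have hcK : CharP K p := charP_of_injective_algebraMap (algebraMap k K).injective p
  have : ∀ i, Fintype (Ji E D i) := fun i => Fintype.ofFinite _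
  -- the elements t
  have hex : ∀ q : Σ i, Ji E D i, ∃ t ∈ E q.1, D q.1 t = 1 := by
    rintro ⟨i, ⟨x, hx, hx0⟩⟩
    obtain ⟨t, ht⟩ := Pool.Agent.TH883.J1050.exists_der_one p k (E i)
      (resD (E i) (D i) (hDE i)) (fun x => Subtype.ext (by
        rw [resD_iter]
        exact hDp i x x.2)) ⟨⟨x, hx⟩, fun h => hx0 (congrArg Subtype.val h)⟩
    exact ⟨t, t.2, congrArg Subtype.val ht⟩
  choose t htE ht1 using hex
  let L := cps (Fi E D)
  have htF : ∀ q, t q ^ p ∈ Fi E D q.1 := fun q =>
    ⟨pow_mem (htE q) p, pow_mem_kerF p k K (D q.1) (t q)⟩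
  let f : ∀ i, Ji E D i → Fi E D i := fun i j => ⟨t ⟨i, j⟩ ^ p, htF ⟨i, j⟩⟩
  have hf : ∀ i l, ¬ ∃ b, b ^ p = f i l := fun i l =>
    not_pow E D p i (t ⟨i, l⟩) (fun h => one_ne_zero ((ht1 ⟨i, l⟩).symm.trans h)) (f i l) rfl
  have hGM := gm_cps p (Fi E D) (fun i => surfM_Fi E D p i (h2 i) (hM i))
    (mulHom_Fi E D hmi hdis) (Ji E D) f hf S (fun i b => s b i) (fun i b => hs b i)
  have hgt := gen_t E D p hgen hDE 0 (fun i x hx => by
    rw [hDp i x hx, Pi.zero_apply, zero_smul]) t htE (fun q => by rw [ht1]; exact one_ne_zero)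
  -- the derivations
  have hL : ∀ q : Σ i, Ji E D i, ∀ x ∈ L, D q.1 x = 0 := fun q x hx => der_cps E D hD0 q.1 x hx
  have htL : ∀ q, t q ^ p ∈ L := fun q => mem_cps (Fi E D) q.1 ⟨_, htF q⟩
  have hδ : ∀ q q' : Σ i, Ji E D i, D q.1 (t q') = if q = q' then 1 else 0 := by
    rintro ⟨i, a⟩ ⟨i', a'⟩
    by_cases h : i = i'
    · subst h
      rw [Subsingleton.elim a' a, if_pos rfl]
      exact ht1 ⟨i, a⟩
    · rw [if_neg (fun h' => h (congrArg Sigma.fst h'))]
      exact hD0 i i' h _ (htE ⟨i', a'⟩)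
  let V' : Set ((Σ i, Ji E D i) → k) := (fun v q => v q.1) '' V
  have hV : ∀ x : K, (∀ v ∈ V', ∑ q, v q • D q.1 x = 0) ↔ x ∈ N := by
    intro x
    rw [hN]
    constructor
    · intro h v hv
      rw [← sum_red E D hD0 hgen v x]
      exact h _ ⟨v, hv, rfl⟩
    · rintro h _ ⟨v, hv, rfl⟩
      exact (sum_red E D hD0 hgen v x).trans (h v hv)
  -- the orthogonal complement
  let U0 : Submodule k ((Σ i, Ji E D i) → k) :=
    { carrier := {a | ∀ v ∈ V', ∑ j, v j * a j = 0}
      add_mem' := by
        intro a b ha hb v hv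
        have e1 : ∑ j, v j * (a + b) j = ∑ j, v j * a j + ∑ j, v j * b j := by
          rw [← Finset.sum_add_distrib]
          exact Finset.sum_congr rfl fun j _ => mul_add _ _ _
        rw [e1, ha v hv, hb v hv, add_zero]
      zero_mem' := by
        intro v hv
        exact Finset.sum_eq_zero fun j _ => mul_zero _
      smul_mem' := by
        intro c a ha v hv
        have e1 : ∑ j, v j * (c • a) j = c * ∑ j, v j * a j := by
          rw [Finset.mul_sum]
          exact Finset.sum_congr rfl fun j _ => by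
            rw [Pi.smul_apply, smul_eq_mul]; ring
        rw [e1, ha v hv, mul_zero] }
  let b := Module.finBasis k U0
  let wl : ((Σ i, Ji E D i) → k) → K := fun a => ∑ q, a q • t q
  have hwN : ∀ a ∈ U0, wl a ∈ N := by
    intro a ha
    rw [← hV]
    intro v hv
    have h1 : ∀ q, D q.1 (wl a) = algebraMap k K (a q) := by
      intro q
      change D q.1 (∑ l, a l • t l) = _
      rw [map_sum, Finset.sum_eq_single q]
      · rw [(D q.1).map_smul, hδ, if_pos rfl, Algebra.smul_def, mul_one]
      · intro l _ hl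
        rw [(D q.1).map_smul, hδ, if_neg (Ne.symm hl), smul_zero]
      · intro h; exact absurd (Finset.mem_univ q) h
    have h2 : ∑ q, v q • D q.1 (wl a) = algebraMap k K (∑ q, v q * a q) := by
      rw [map_sum]
      refine Finset.sum_congr rfl fun q _ => ?_
      rw [h1, Algebra.smul_def, map_mul]
    rw [h2, ha v hv, map_zero]
  have hLN : L ≤ N := fun x hx => by
    rw [← hV]
    intro v _
    exact Finset.sum_eq_zero fun q _ => by rw [hL q x hx, smul_zero]
  let aN : Algebra L N := (IntermediateField.inclusion hLN).toAlgebra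
  have tN : IsScalarTower k L N := IsScalarTower.of_algebraMap_eq fun c => rfl
  let w : Fin (Module.finrank k U0) → N := fun j => ⟨wl (b j), hwN _ (b j).2⟩
  have hgenN : IntermediateField.adjoin L (Set.range w) = ⊤ := by
    rw [eq_top_iff]
    intro x _
    have hx := const_add memOfDer p L t (fun q => D q.1) hL htL hδ hgt V' x
      ((hV (x : K)).2 x.2)
    let R : IntermediateField k K :=
      ((IntermediateField.adjoin L (Set.range w)).restrictScalars k).map N.val
    have hR : ∀ z : N, (z : K) ∈ R → z ∈ IntermediateField.adjoin L (Set.range w) := by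
      rintro z ⟨z', hz', hzz⟩
      have h3 : z' = z := Subtype.ext hzz
      rw [← h3]
      exact hz'
    refine hR x ?_
    have h4 : IntermediateField.adjoin k ((L : Set K) ∪ {y | ∃ lam : (Σ i, Ji E D i) → k,
      (∀ v ∈ V', ∑ j, v j * lam j = 0) ∧ y = ∑ j, lam j • t j}) ≤ R := by
      rw [IntermediateField.adjoin_le_iff]
      rintro z (hz | ⟨lam, hlam, rfl⟩)
      · exact ⟨algebraMap L N ⟨z, hz⟩,
          (IntermediateField.adjoin L (Set.range w)).algebraMap_mem ⟨z, hz⟩, rfl⟩
      · have h5 : ∑ j, lam j • t j = ∑ j, b.repr ⟨lam, hlam⟩ j • wl (b j) := by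
          have h6 : lam = ∑ j, b.repr ⟨lam, hlam⟩ j • (b j : (Σ i, Ji E D i) → k) := by
            have h7 := congrArg Subtype.val (b.sum_repr ⟨lam, hlam⟩)
            rw [Submodule.coe_sum] at h7
            exact h7.symm
          have h8 : ∀ a : Fin (Module.finrank k U0) → k,
              wl (∑ j, a j • (b j : (Σ i, Ji E D i) → k)) = ∑ j, a j • wl (b j) := by
            intro a
            change ∑ q, (∑ j, a j • (b j : (Σ i, Ji E D i) → k)) q • t q =
              ∑ j, a j • ∑ q, (b j : (Σ i, Ji E D i) → k) q • t q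
            rw [Finset.sum_congr rfl fun j _ => Finset.smul_sum, Finset.sum_comm]
            refine Finset.sum_congr rfl fun q _ => ?_
            rw [Finset.sum_apply, Finset.sum_smul]
            refine Finset.sum_congr rfl fun j _ => ?_
            rw [Pi.smul_apply, smul_assoc]
          rw [← h8, ← h6]
        rw [h5]
        refine sum_mem fun j _ => ?_
        rw [Algebra.smul_def]
        refine mul_mem (R.algebraMap_mem _) ?_
        exact ⟨w j, IntermediateField.subset_adjoin L _ ⟨j, rfl⟩, rfl⟩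
    exact h4 hx
  obtain ⟨T, I, hT, hI, M, Γ, hF, hR⟩ := tower_add p N hGM (Module.finrank k U0) w
    (fun j q => (b j : (Σ i, Ji E D i) → k) q ^ p) (by
      intro j
      apply Subtype.ext
      change (∑ q, (b j : (Σ i, Ji E D i) → k) q • t q) ^ p = algebraMap L K _
      rw [sum_pow_char, map_sum]
      refine Finset.sum_congr rfl fun q _ => ?_
      rw [Algebra.smul_def, mul_pow, map_mul, ← map_pow]
      rfl) hgenN
  obtain ⟨Γ', hΓ'⟩ := fin_model hF y (by
    intro b
    have h1 : y b = ∏ i, (⟨(s b i : K), hLN (mem_cps (Fi E D) i (s b i))⟩ : N) := by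
      apply Subtype.ext
      rw [hy, ← IntermediateField.algebraMap_apply, map_prod]
      rfl
    rw [h1]
    exact Submonoid.prod_mem _ fun i _ => Submonoid.subset_closure ⟨(i, b), rfl⟩)
  exact ⟨T, I, hT, hI, M, Γ', hΓ', hR⟩

end model

end Pool.Agent.TH188.VQ
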