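import Pool.Agent.TH188.VQ.Model

/-!
# Models of the field of common constants, multiplicative case
-/

set_option autoImplicit false
set_option linter.unusedVariables false
set_option linter.unusedSectionVars false

universe u

open Polynomial Pool.Agent.W558 Pool.Agent.TH188.WP Pool.Agent.TH188.WQ TensorProduct

namespace Pool.Agent.TH188.VQ

section model

variable {k K : Type u} [Field k] [Field K] [Algebra k K] {n : ℕ}
variable (E : Fin n → IntermediateField k K) (D : Fin n → Derivation k K K)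

/-- Models of the field of common constants, multiplicative case. -/
theorem exists_model_mul (hmi : MulHomInj.{u}) (p : ℕ) [Fact p.Prime] [PerfectField k] [CharP k p]
    (h2 : ∀ i, Algebra.trdeg k (E i) = 2) (hM : ∀ i, HasModel k (E i))
    (hdis : Function.Injective (mulHom E)) (hgen : cps E = ⊤)
    (hDE : ∀ i, ∀ x ∈ E i, D i x ∈ E i) (hD0 : ∀ i l, i ≠ l → ∀ x ∈ E l, D i x = 0)
    (hDp : ∀ i, ∀ x ∈ E i, (D i)^[p] x = D i x) (V : Set (Fin n → k))
    (N : IntermediateField k K) (hN : ∀ x, x ∈ N ↔ ∀ v ∈ V, ∑ i, v i • D i x = 0)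
    (S : Type) [Finite S] (s : S → ∀ i, Fi E D i) (hs : ∀ b i, s b i ≠ 0)
    (y : S → N) (hy : ∀ b, (y b : K) = ∏ i, (s b i : K)) :
    ∃ (T I : Type) (_ : Finite T) (_ : Fintype I) (M : LM (⊥ : Subalgebra k N) ⊤ T I)
      (Γ : S → I → ℤ), Fn M y Γ ∧ Frc M := by
  classical
  have hp : p.Prime := Fact.out
  have hcK : CharP K p := charP_of_injective_algebraMap (algebraMap k K).injective p
  have : ∀ i, Fintype (Ji E D i) := fun i => Fintype.ofFinite _
  -- the elements t
  have hex : ∀ q : Σ i, Ji E D i, ∃ t ∈ E q.1, t ≠ 0 ∧ D q.1 t = t := by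
    rintro ⟨i, ⟨x, hx, hx0⟩⟩
    obtain ⟨t, ht0, ht⟩ := Pool.Agent.TH883.J1050.exists_der_self p k (E i)
      (resD (E i) (D i) (hDE i)) (fun x => Subtype.ext (by
        rw [resD_iter]
        exact hDp i x x.2)) ⟨⟨x, hx⟩, fun h => hx0 (congrArg Subtype.val h)⟩
    exact ⟨t, t.2, fun h => ht0 (Subtype.ext h), congrArg Subtype.val ht⟩
  choose t htE ht0 ht1 using hex
  have htn : ∀ q, D q.1 (t q) ≠ 0 := fun q => by rw [ht1]; exact ht0 q
  let L := cps (Fi E D)
  have htF : ∀ q, t q ^ p ∈ Fi E D q.1 := fun q =>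
    ⟨pow_mem (htE q) p, pow_mem_kerF p k K (D q.1) (t q)⟩
  let f : ∀ i, Ji E D i → Fi E D i := fun i j => ⟨t ⟨i, j⟩ ^ p, htF ⟨i, j⟩⟩
  have hf : ∀ i l, ¬ ∃ b, b ^ p = f i l := fun i l =>
    not_pow E D p i (t ⟨i, l⟩) (htn ⟨i, l⟩) (f i l) rfl
  have hf0 : ∀ i l, f i l ≠ 0 := fun i l h =>
    ht0 ⟨i, l⟩ (pow_eq_zero_iff hp.ne_zero |>.1 (congrArg Subtype.val h))
  let c : ∀ i, S ⊕ Unit → Fi E D i := fun i => Sum.elim (fun b => s b i)
    (fun _ => if h : ∃ x ∈ E i, D i x ≠ 0 then f i ⟨h⟩ else 1)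
  have hc : ∀ i b, c i b ≠ 0 := by
    rintro i (b | b)
    · exact hs b i
    · change (if h : ∃ x ∈ E i, D i x ≠ 0 then f i ⟨h⟩ else 1) ≠ 0
      split_ifs with h
      · exact hf0 i ⟨h⟩
      · exact one_ne_zero
  have hGM := gm_cps p (Fi E D) (fun i => surfM_Fi E D p i (h2 i) (hM i))
    (mulHom_Fi E D hmi hdis) (Ji E D) f hf (S ⊕ Unit) c hc
  have hgt := gen_t E D p hgen hDE 1 (fun i x hx => by
    rw [hDp i x hx, Pi.one_apply, one_smul]) t htE htn
  -- the derivations
  have hL : ∀ q : Σ i, Ji E D i, ∀ x ∈ L, D q.1 x = 0 := fun q x hx => der_cps E D hD0 q.1 x hx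
  have htL : ∀ q, t q ^ p ∈ L := fun q => mem_cps (Fi E D) q.1 ⟨_, htF q⟩
  have hδ : ∀ q q' : Σ i, Ji E D i, D q.1 (t q') = if q = q' then t q' else 0 := by
    rintro ⟨i, a⟩ ⟨i', a'⟩
    by_cases h : i = i'
    · subst h
      rw [Subsingleton.elim a' a, if_pos rfl]
      exact ht1 ⟨i, a⟩
    · rw [if_neg (fun h' => h (congrArg Sigma.fst h'))]
      exact hD0 i i' h _ (htE ⟨i', a'⟩)
  let V' : Set ((Σ i, Ji E D i) → k) := (fun v q => v q.1) '' V
  have hV : ∀ x : K, (∀ v ∈ V', ∑ q, v q • D q.1 x = 0) ↔ x ∈ N := by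
    intro x
    rw [hN]
    constructor
    · intro h v hv
      rw [← sum_red E D hD0 hgen v x]
      exact h _ ⟨v, hv, rfl⟩
    · rintro h _ ⟨v, hv, rfl⟩
      exact (sum_red E D hD0 hgen v x).trans (h v hv)
  -- the orthogonal complement
  let U0 : Type := {lam : (Σ i, Ji E D i) → ZMod p // ∀ v ∈ V', ∑ j, v j * ((lam j).val : k) = 0}
  have hU0 : Finite U0 := Subtype.finite
  obtain ⟨r, ⟨ε⟩⟩ := Finite.exists_equiv_fin U0
  let wl : ((Σ i, Ji E D i) → ZMod p) → K := fun a => ∏ q, t q ^ (a q).val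
  have hwN : ∀ a : U0, wl a.1 ∈ N := by
    intro a
    rw [← hV]
    intro v hv
    have h1 : ∀ q, D q.1 (wl a.1) = ((a.1 q).val : k) • wl a.1 := by
      intro q
      have h3 := der_prod (D q.1) t (fun q => (a.1 q).val) (fun l => if q = l then 1 else 0)
        (fun l => by
          rw [hδ]
          split_ifs
          · rw [one_smul]
          · rw [zero_smul])
      rw [Finset.sum_eq_single q, if_pos rfl, one_mul] at h3
      · exact h3
      · intro l _ hl
        rw [if_neg (Ne.symm hl), zero_mul]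
      · intro h; exact absurd (Finset.mem_univ q) h
    have h2 : ∑ q, v q • D q.1 (wl a.1) = (∑ q, v q * ((a.1 q).val : k)) • wl a.1 := by
      rw [Finset.sum_smul]
      refine Finset.sum_congr rfl fun q _ => ?_
      rw [h1, smul_smul]
    rw [h2, a.2 v hv, zero_smul]
  have hLN : L ≤ N := fun x hx => by
    rw [← hV]
    intro v _
    exact Finset.sum_eq_zero fun q _ => by rw [hL q x hx, smul_zero]
  let aN : Algebra L N := (IntermediateField.inclusion hLN).toAlgebra
  have tN : IsScalarTower k L N := IsScalarTower.of_algebraMap_eq fun c => rfl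
  let w : Fin r → N := fun j => ⟨wl (ε.symm j).1, hwN _⟩
  have hgenN : IntermediateField.adjoin L (Set.range w) = ⊤ := by
    rw [eq_top_iff]
    intro x _
    have hx := const_mul p L t (fun q => D q.1) hL htL hδ hgt V' x
      ((hV (x : K)).2 x.2)
    let R : IntermediateField k K :=
      ((IntermediateField.adjoin L (Set.range w)).restrictScalars k).map N.val
    have hR : ∀ z : N, (z : K) ∈ R → z ∈ IntermediateField.adjoin L (Set.range w) := by
      rintro z ⟨z', hz', hzz⟩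
      have h3 : z' = z := Subtype.ext hzz
      rw [← h3]
      exact hz'
    refine hR x ?_
    have h4 : IntermediateField.adjoin k ((L : Set K) ∪ {y | ∃ lam : (Σ i, Ji E D i) → ZMod p,
      (∀ v ∈ V', ∑ j, v j * ((lam j).val : k) = 0) ∧ y = ∏ j, t j ^ (lam j).val}) ≤ R := by
      rw [IntermediateField.adjoin_le_iff]
      rintro z (hz | ⟨lam, hlam, rfl⟩)
      · exact ⟨algebraMap L N ⟨z, hz⟩,
          (IntermediateField.adjoin L (Set.range w)).algebraMap_mem ⟨z, hz⟩, rfl⟩
      · refine ⟨w (ε ⟨lam, hlam⟩), IntermediateField.subset_adjoin L _ ⟨_, rfl⟩, ?_⟩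
        change wl (ε.symm (ε ⟨lam, hlam⟩)).1 = _
        rw [ε.symm_apply_apply]
    exact h4 hx
  obtain ⟨T, I, hT, hI, M, Γ, hF, hR⟩ := tower_mul p N hGM (by
      rintro ⟨i, ⟨h⟩⟩
      refine Submonoid.subset_closure ⟨(i, Sum.inr ()), ?_⟩
      apply Subtype.ext
      change ((if h : ∃ x ∈ E i, D i x ≠ 0 then f i ⟨h⟩ else 1 : Fi E D i) : K) = f i ⟨h⟩
      rw [dif_pos h]) (by
      rintro ⟨i, l⟩ h
      exact hf0 i l (Subtype.ext (congrArg (fun z : cps (Fi E D) => (z : K)) h))) r w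
    (fun j => (ε.symm j).1) (by
      intro j
      apply Subtype.ext
      change (∏ q, t q ^ ((ε.symm j).1 q).val) ^ p = algebraMap L K _
      unfold pw
      rw [← Finset.prod_pow, map_prod]
      refine Finset.prod_congr rfl fun q _ => ?_
      rw [map_pow, ← pow_mul, mul_comm, pow_mul]
      rfl) hgenN
  obtain ⟨Γ', hΓ'⟩ := fin_model hF y (by
    intro b
    have h1 : y b = ∏ i, (⟨(s b i : K), hLN (mem_cps (Fi E D) i (s b i))⟩ : N) := by
      apply Subtype.ext
      rw [hy, ← IntermediateField.algebraMap_apply, map_prod]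
      rfl
    rw [h1]
    exact Submonoid.prod_mem _ fun i _ => Submonoid.subset_closure ⟨(i, Sum.inl b), rfl⟩)
  exact ⟨T, I, hT, hI, M, Γ', hΓ', hR⟩

end model

end Pool.Agent.TH188.VQ
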