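import Pool.Agent.TH188.VQ.Fld

/-!
# Preparations
-/

set_option autoImplicit false
set_option linter.unusedVariables false
set_option linter.unusedSectionVars false

universe u

open Polynomial Pool.Agent.W558 Pool.Agent.TH188.WP Pool.Agent.TH188.WQ TensorProduct

namespace Pool.Agent.TH188.VQ

/-- Statement: linear disjointness of subfields of fields of fractions. -/
def MulHomInj : Prop :=
  ∀ (k K : Type u) [Field k] [Field K] [Algebra k K] (n : ℕ) (A : Fin n → Type u)
    [∀ i, CommRing (A i)] [∀ i, IsDomain (A i)] [∀ i, Algebra k (A i)]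
    (g : (⨂[k] i, A i) →ₐ[k] K), Function.Injective g → ∀ (E : Fin n → IntermediateField k K),
    (∀ i, ∀ x ∈ E i, ∃ a b : A i,
      g (PiTensorProduct.singleAlgHom (R := k) (A := A) i b) ≠ 0 ∧
      x * g (PiTensorProduct.singleAlgHom (R := k) (A := A) i b) =
        g (PiTensorProduct.singleAlgHom (R := k) (A := A) i a)) →
    Function.Injective (mulHom E)

lemma SurfM.congr (p : ℕ) [Fact p.Prime] {k E F : Type u} [Field k] [PerfectField k] [CharP k p]
    [Field E] [Algebra k E] [Field F] [Algebra k F] (e : E ≃ₐ[k] F) (h : SurfM k E) :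
    SurfM k F := by
  have hp : p.Prime := Fact.out
  let a : Algebra E F := e.toRingEquiv.toRingHom.toAlgebra
  have t1 : IsScalarTower k E F := IsScalarTower.of_algebraMap_eq fun c => (e.commutes c).symm
  refine h.root p F 0 0 (by rw [map_zero, zero_pow hp.ne_zero]) ?_
  rw [IntermediateField.adjoin_zero, eq_top_iff]
  intro y _
  exact IntermediateField.mem_bot.2 ⟨e.symm y, e.apply_symm_apply y⟩

section prep

variable {k K : Type u} [Field k] [Field K] [Algebra k K]

/-- The restriction of a derivation. -/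
def resD (F : IntermediateField k K) (D : Derivation k K K) (h : ∀ x ∈ F, D x ∈ F) :
    Derivation k F F :=
  Derivation.mk' ({
    toFun := fun x => ⟨D x, h x x.2⟩
    map_add' := fun x y => Subtype.ext (D.map_add x y)
    map_smul' := fun c x => Subtype.ext (D.map_smul c (x : K)) } : F →ₗ[k] F)
    (fun x y => Subtype.ext (D.leibniz (x : K) y))

lemma resD_coe (F : IntermediateField k K) (D : Derivation k K K) (h : ∀ x ∈ F, D x ∈ F) (x : F) :
    (resD F D h x : K) = D x := rfl

lemma resD_iter (F : IntermediateField k K) (D : Derivation k K K) (h : ∀ x ∈ F, D x ∈ F) (m : ℕ)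
    (x : F) : ((resD F D h)^[m] x : K) = D^[m] x := by
  induction m with
  | zero => rfl
  | succ m ih => rw [Function.iterate_succ_apply', Function.iterate_succ_apply', resD_coe, ih]

variable {n : ℕ} (E : Fin n → IntermediateField k K) (D : Fin n → Derivation k K K)

/-- The constants of the `i`-th derivation in the `i`-th field. -/
def Fi (i : Fin n) : IntermediateField k K := E i ⊓ kerF (D i)

lemma mem_Fi {i : Fin n} {x : K} : x ∈ Fi E D i ↔ x ∈ E i ∧ D i x = 0 := Iff.rfl

/-- The index set of the derivations which do not vanish. -/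
abbrev Ji (i : Fin n) : Type := PLift (∃ x ∈ E i, D i x ≠ 0)

theorem surfM_Fi (p : ℕ) [Fact p.Prime] [PerfectField k] [CharP k p] (i : Fin n)
    (h2 : Algebra.trdeg k (E i) = 2) (hM : HasModel k (E i)) : SurfM k (Fi E D i) := by
  have hcK : CharP K p := charP_of_injective_algebraMap (algebraMap k K).injective p
  let F' : IntermediateField k (E i) := (kerF (D i)).comap (E i).val
  have h1 : SurfM k F' := surfM_sub p k (E i) h2 hM F' fun x => pow_mem_kerF p k K (D i) (x : K)
  let e : F' ≃ₐ[k] Fi E D i := AlgEquiv.ofBijective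
    (((E i).val.comp F'.val).codRestrict (Fi E D i).toSubalgebra fun x => ⟨x.1.2, x.2⟩) (by
      constructor
      · intro x y hxy
        have h3 : ((x : E i) : K) = ((y : E i) : K) := congrArg (fun z : Fi E D i => (z : K)) hxy
        exact Subtype.ext (Subtype.ext h3)
      · rintro ⟨y, hy1, hy2⟩
        exact ⟨⟨⟨y, hy1⟩, hy2⟩, rfl⟩)
  exact SurfM.congr p e h1

theorem mulHom_Fi (hmi : MulHomInj.{u}) (hdis : Function.Injective (mulHom E)) :
    Function.Injective (mulHom (Fi E D)) := by
  refine hmi k K n (fun i => E i) (mulHom E) hdis _ fun i x hx => ⟨⟨x, hx.1⟩, 1, ?_, ?_⟩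
  · rw [mulHom_single]
    exact one_ne_zero
  · rw [mulHom_single, mulHom_single]
    exact mul_one x

variable (hD0 : ∀ i l, i ≠ l → ∀ x ∈ E l, D i x = 0)

include hD0 in
lemma der_cps (i : Fin n) (x : K) (hx : x ∈ cps (Fi E D)) : D i x = 0 := by
  refine adjoin_ker ?_ hx
  intro y hy
  obtain ⟨l, hl⟩ := Set.mem_iUnion.1 hy
  by_cases h : i = l
  · subst h
    exact hl.2
  · exact hD0 i l h y hl.1

include hD0 in
lemma der_zero (hgen : cps E = ⊤) (i : Fin n) (hi : ¬ ∃ x ∈ E i, D i x ≠ 0) (x : K) :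
    D i x = 0 := by
  push Not at hi
  have hx : x ∈ cps E := by rw [hgen]; trivial
  refine adjoin_ker ?_ hx
  intro y hy
  obtain ⟨l, hl⟩ := Set.mem_iUnion.1 hy
  by_cases h : i = l
  · subst h
    exact hi y hl
  · exact hD0 i l h y hl

include hD0 in
lemma sum_red [∀ i, Fintype (Ji E D i)] (hgen : cps E = ⊤) (v : Fin n → k) (x : K) :
    ∑ q : Σ i, Ji E D i, v q.1 • D q.1 x = ∑ i, v i • D i x := by
  rw [Fintype.sum_sigma]
  refine Finset.sum_congr rfl fun i _ => ?_
  by_cases hi : ∃ x ∈ E i, D i x ≠ 0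
  · rw [Fintype.sum_eq_single ⟨hi⟩]
    intro j hj
    exact absurd (Subsingleton.elim _ _) hj
  · rw [der_zero E D hD0 hgen i hi x, smul_zero]
    exact Finset.sum_eq_zero fun j _ => absurd j.down hi

/-- The field is generated by the constants and the elements `t`. -/
theorem gen_t (p : ℕ) [Fact p.Prime] [PerfectField k] [CharP k p] (hgen : cps E = ⊤)
    (hDE : ∀ i, ∀ x ∈ E i, D i x ∈ E i) (c : Fin n → k)
    (hDp : ∀ i, ∀ x ∈ E i, (D i)^[p] x = c i • D i x) (t : (Σ i, Ji E D i) → K)
    (ht : ∀ q, t q ∈ E q.1) (ht0 : ∀ q, D q.1 (t q) ≠ 0) :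
    IntermediateField.adjoin k ((cps (Fi E D) : Set K) ∪ Set.range t) = ⊤ := by
  rw [eq_top_iff, ← hgen, IntermediateField.adjoin_le_iff]
  intro y hy
  obtain ⟨i, hi⟩ := Set.mem_iUnion.1 hy
  have hFL : ∀ x ∈ Fi E D i, x ∈ IntermediateField.adjoin k
      ((cps (Fi E D) : Set K) ∪ Set.range t) := fun x hx =>
    IntermediateField.subset_adjoin k _ (Or.inl (mem_cps (Fi E D) i ⟨x, hx⟩))
  by_cases h0 : ∃ x ∈ E i, D i x ≠ 0
  · let q : Σ i, Ji E D i := ⟨i, ⟨h0⟩⟩
    have h1 := adjoin_of_der p k (E i) (resD (E i) (D i) (hDE i)) (c i) (fun x =>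
      Subtype.ext (by
        rw [resD_iter]
        exact hDp i x x.2)) ⟨t q, ht q⟩ (fun h => ht0 q (congrArg Subtype.val h))
    have h2 : IntermediateField.adjoin k (insert (⟨t q, ht q⟩ : E i)
        (kerF (resD (E i) (D i) (hDE i)) : Set (E i))) ≤
        (IntermediateField.adjoin k ((cps (Fi E D) : Set K) ∪ Set.range t)).comap (E i).val := by
      rw [IntermediateField.adjoin_le_iff]
      rintro z (hz | hz)
      · rw [hz]
        exact IntermediateField.subset_adjoin k _ (Or.inr ⟨q, rfl⟩)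
      · exact hFL z ⟨z.2, congrArg Subtype.val hz⟩
    rw [h1] at h2
    exact h2 (x := ⟨y, hi⟩) trivial
  · push Not at h0
    exact hFL y ⟨hi, h0 y hi⟩

/-- The functions `t ^ p` are not `p`-th powers. -/
lemma not_pow (p : ℕ) [Fact p.Prime] [CharP k p] (i : Fin n) (t : K) (ht : D i t ≠ 0)
    (f : Fi E D i) (hf : t ^ p = (f : K)) : ¬ ∃ b, b ^ p = f := by
  rintro ⟨b, hb⟩
  have hcK : CharP K p := charP_of_injective_algebraMap (algebraMap k K).injective p
  have h1 : t = (b : K) := by
    apply frobenius_inj K p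
    rw [frobenius_def, frobenius_def, hf, ← hb]
    rfl
  exact ht (by rw [h1]; exact b.2.2)

end prep

end Pool.Agent.TH188.VQ
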